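import Pool.Agent.H21.AWDefs
import Pool.Agent.H21.Triple

namespace Pool.Agent.Results.MP_b3a6b1_al.Q2No

open Pool.Agent.H21.Triple Matrix

lemma aw3 (B C : Module.End ℚ (Fin 3 → ℚ)) : AW ℚ B C := by
  obtain ⟨B, rfl⟩ := (toLinAlgEquiv' (R := ℚ) (n := Fin 3)).surjective B
  obtain ⟨C, rfl⟩ := (toLinAlgEquiv' (R := ℚ) (n := Fin 3)).surjective C
  refine ⟨-1, B.trace, C.trace, -(adjugate B).trace, -(adjugate C).trace, (B * C).trace - B.trace * C.trace,
    (adjugate B * C).trace, (adjugate C * B).trace, ?_, ?_⟩ <;>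
  · unfold lhs rhs
    rw [← map_one (toLinAlgEquiv' (R := ℚ) (n := Fin 3))]
    simp only [← map_pow, ← map_mul, ← map_smul, ← map_add, ← map_sub]
    congr 1
    ext i j
    fin_cases i <;> fin_cases j <;>
      simp [sq, mul_apply, Fin.sum_univ_three, trace_fin_three, adjugate_fin_three, vecMul, dotProduct] <;> ring

theorem result : ∃ A A' E : Module.End ℚ (Fin 3 → ℚ), IsLeonardPair A A' ∧
    InSp ℚ E A A' ∧ InSp ℚ A A' E ∧ InSp ℚ A' E A ∧
    (∀ B ∈ ({A, A', E} : Set _), ∀ C ∈ ({A, A', E} : Set _), AW ℚ B C) ∧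
    (∃ (n : ℕ) (b : Module.Basis (Fin n) ℚ (Fin 3 → ℚ)), (LinearMap.toMatrix b b E).IsDiag) ∧
    ¬IsLeonardTriple A A' E := by
  have e : toLin' (!![-1, 0, 0; 0, 0, 0; 0, 0, 1] : Matrix _ _ ℚ) =
      toLin' !![-4, -2, -1; 4, 3, 2; -4, -4, -3] + toLin' !![3, 2, 1; -4, -3, -2; 4, 4, 4] := by
    rw [← map_add]; congr 1; norm_num
  refine ⟨toLin' !![-4, -2, -1; 4, 3, 2; -4, -4, -3], toLin' !![3, 2, 1; -4, -3, -2; 4, 4, 4],
    toLin' !![-1, 0, 0; 0, 0, 0; 0, 0, 1], ⟨?_, ?_⟩, ?_, ?_, ?_, fun _ _ _ _ => aw3 _ _,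
    ⟨3, Pi.basisFun _ _, by simpa using isDiag3 _ _ _⟩, ?_⟩
  · refine diagTri_of !![1, 0, 1; -4, -1, -1; 4, 2, 1] !![-1/3, -2/3, -1/3; 0, 1, 1; 4/3, 2/3, 1/3] _ _
      (by rw [one_fin_three]; norm_num) ?_ ?_
    · convert isDiag3 (0 : ℚ) (-1) (-3) using 1; norm_num; ext i; fin_cases i <;> rfl
    · convert irrTri3 (-1 : ℚ) (-2/3) 4 3 1 (2/3) 2 (by norm_num) (by norm_num) (by norm_num) (by norm_num) using 1
      norm_num
  · refine diagTri_of !![-1, -1, 1; 2, 1, -2; -1, 0, 4] !![4/3, 4/3, 1/3; -2, -1, 0; 1/3, 1/3, 1/3] _ _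
      (by rw [one_fin_three]; norm_num) ?_ ?_
    · convert isDiag3 (0 : ℚ) 1 3 using 1; norm_num; ext i; fin_cases i <;> rfl
    · convert irrTri3 (1 : ℚ) (4/3) (-2) (-3) 2 (1/3) (-2) (by norm_num) (by norm_num) (by norm_num) (by norm_num) using 1
      norm_num
  · unfold InSp; nth_rw 1 [e]; exact add_mem (Submodule.subset_span (by simp)) (Submodule.subset_span (by simp))
  · unfold InSp; nth_rw 1 [eq_sub_of_add_eq e.symm]; exact sub_mem (Submodule.subset_span (by simp)) (Submodule.subset_span (by simp))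
  · unfold InSp; nth_rw 1 [eq_sub_of_add_eq' e.symm]; exact sub_mem (Submodule.subset_span (by simp)) (Submodule.subset_span (by simp))
  rintro ⟨-, -, n, b, h1, h2, -⟩
  obtain rfl : n = 3 := by simpa using (Module.finrank_eq_card_basis b).symm
  have k (i : Fin 3) : ∃ j, ∀ l, l ≠ j → b i l = 0 := by
    have := b.sum_repr (toLin' (!![-1, 0, 0; 0, 0, 0; 0, 0, 1] : Matrix _ _ ℚ) (b i))
    rw [Finset.sum_eq_single i (fun j _ hj => by rw [← LinearMap.toMatrix_apply, h1 hj, zero_smul]) (by simp)] at this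
    generalize b.repr _ i = c at this
    have a0 := congr($this 0); have a1 := congr($this 1); have a2 := congr($this 2)
    simp [vecHead, vecTail] at a0 a1 a2
    simp only [Fin.exists_fin_succ, Fin.forall_fin_succ]
    simp
    grind
  choose j hj using k
  have hb (i) : b i (j i) ≠ 0 := fun e => b.ne_zero i (funext fun l => if h : l = j i then h ▸ e else hj i l h)
  have inj {i i' : Fin 3} (n : i ≠ i') : j i ≠ j i' := fun e => by
    have : b i' (j i') • b i = b i (j i) • b i' := funext fun l => by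
      by_cases h : l = j i
      · simp [h, e, mul_comm]
      · simp [hj i l h, hj i' l (e ▸ h)]
    simpa [n.symm, hb] using congr(b.repr $this i)
  have := congr($(b.sum_repr (toLin' (!![-4, -2, -1; 4, 3, 2; -4, -4, -3] : Matrix _ _ ℚ) (b 2))) (j 0))
  rw [Fin.sum_univ_three, ← LinearMap.toMatrix_apply, (h2 0 2).1 (.inl (by simp))] at this
  simp only [Pi.add_apply, Pi.smul_apply, hj 1 _ (inj (i := 0) (by simp)), hj 2 _ (inj (i := 0) (by simp)), toLin'_apply, mulVec,
    dotProduct, smul_zero, zero_smul, add_zero, Pi.zero_apply] at this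
  rw [Finset.sum_eq_single (j 2) (fun l _ h => by rw [hj 2 l h, mul_zero]) (by simp)] at this
  refine mul_ne_zero ?_ (hb 2) this.symm
  generalize j 0 = x; generalize j 2 = y
  fin_cases x <;> fin_cases y <;> simp

end Pool.Agent.Results.MP_b3a6b1_al.Q2No
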